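import Pool.Agent.W757.BL.Defs
import Pool.Agent.H719R3.BG.Rt
import Pool.Agent.H719R3.BG.Seg

/-!
# Project BL: step maps of convex sets (statement `S_STP`)
-/

set_option autoImplicit false

namespace Pool.Agent.W916.BL

open Set Filter Topology
open Pool.Agent.W757.BL Pool.Agent.H719R3.BG

section

variable {x y x' y' : ℝ → ℝ} {L : ℝ} {Ω K : Set ℂ}

theorem cr_pt (a b c : ℝ) : cr (pt x y b - pt x y a) (pt x y c - pt x y a) =
    (x b - x a) * (y c - y a) - (y b - y a) * (x c - x a) := by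
  simp [Rt.cr_eq, pt]

theorem pt_ne (h : Cv x y x' y' L) {s t : ℝ} (h1 : s < t) (h2 : t < s + L) :
    pt x y s ≠ pt x y t := by
  intro he
  have hx : x s = x t := congrArg Complex.re he
  have hy : y s = y t := congrArg Complex.im he
  have := h.conv s t h1 h2
  rw [hx, hy] at this
  simp at this

theorem pt_per (h : Cv x y x' y' L) (s : ℝ) : pt x y (s + L) = pt x y s := by
  simp [pt, h.px s, h.py s]

theorem continuous_pt (h : Cv x y x' y' L) : Continuous (pt x y) := by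
  have hx : Continuous x := continuous_iff_continuousAt.2 fun s => (h.dx s).continuousAt
  have hy : Continuous y := continuous_iff_continuousAt.2 fun s => (h.dy s).continuousAt
  have : pt x y = fun s => ((x s : ℂ) + (y s : ℂ) * Complex.I) := by
    funext s
    apply Complex.ext <;> simp [pt]
  rw [this]
  fun_prop

/-- injectivity on a period -/
theorem pt_inj (h : Cv x y x' y' L) {s r r' : ℝ} (h1 : s < r) (h2 : r < s + L) (h3 : s < r')
    (h4 : r' < s + L) (he : pt x y r = pt x y r') : r = r' := by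
  rcases lt_trichotomy r r' with h5 | h5 | h5
  · exact absurd he (pt_ne h h5 (by linarith))
  · exact h5
  · exact absurd he.symm (pt_ne h h5 (by linarith))

/-- parameters of the boundary points -/
theorem exists_param (h : Cv x y x' y' L) (hr : range (pt x y) = frontier Ω) (s : ℝ) {p : ℂ}
    (hp : p ∈ frontier Ω) (hne : pt x y s ≠ p) : ∃ r, s < r ∧ r < s + L ∧ pt x y r = p := by
  rw [← hr] at hp
  obtain ⟨t, rfl⟩ := hp
  have hper : Function.Periodic (pt x y) L := pt_per h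
  obtain ⟨r, hr1, hr2⟩ := hper.exists_mem_Ico h.L0 t s
  refine ⟨r, lt_of_le_of_ne hr1.1 ?_, hr1.2, hr2.symm⟩
  rintro rfl
  exact hne hr2.symm

theorem pt_mem (hr : range (pt x y) = frontier Ω) (s : ℝ) : pt x y s ∈ frontier Ω := by
  rw [← hr]
  exact mem_range_self s

/-- existence of the step map -/
theorem exists_step (h : Cv x y x' y' L) (hT : Table Ω) (hr : range (pt x y) = frontier Ω)
    (hK : IsCompact K) (hKc : Convex ℝ K) (hKi : (interior K).Nonempty) (hKΩ : K ⊆ Ω) :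
    ∃ f, Step x y L Ω K f := by
  have hF := rtFacts hT (segFacts hT) hK hKc hKi hKΩ
  have : ∀ s, ∃ r, s < r ∧ r < s + L ∧ RT Ω K (pt x y s) (pt x y r) := by
    intro s
    obtain ⟨B, hB⟩ := hF.ex _ (pt_mem hr s)
    obtain ⟨r, h1, h2, h3⟩ := exists_param h hr s hB.2.1 hB.2.2.1
    exact ⟨r, h1, h2, h3 ▸ hB⟩
  choose f hf1 hf2 hf3 using this
  refine ⟨f, fun s => ⟨hf1 s, hf2 s, hf3 s, fun s' h1 h2 h3 => ?_⟩⟩
  exact pt_inj h h1 h2 (hf1 s) (hf2 s) (hF.uniq _ _ _ h3 (hf3 s))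

theorem step_strictMono (hC : CF x y x' y' L) (hT : Table Ω)
    (hK : IsCompact K) (hKc : Convex ℝ K)
    (hKi : (interior K).Nonempty) (hKΩ : K ⊆ Ω) {f : ℝ → ℝ} (hf : Step x y L Ω K f) :
    StrictMono f := by
  have hF := rtFacts hT (segFacts hT) hK hKc hKi hKΩ
  intro s r hsr
  rcases le_or_gt (f s) r with h1 | h1
  · exact lt_of_le_of_lt h1 (hf r).1
  by_contra hcon
  rw [not_lt] at hcon
  obtain ⟨hs1, hs2, hs3, -⟩ := hf s
  obtain ⟨hr1, hr2, hr3, -⟩ := hf r
  obtain ⟨k, hk, hk2⟩ := hF.touch _ _ hr3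
  have hpos := hs3.2.2.2.1 k hk
  obtain ⟨a, b, ha, hb, hab, hk3⟩ := hk2
  have e1 : cr (pt x y (f s) - pt x y s) (pt x y r - pt x y s) < 0 := by
    have := hC.orient s r (f s) hsr h1 hs2
    rw [← cr_pt, Rt.cr_antisymm] at this
    linarith
  have e2 : cr (pt x y (f s) - pt x y s) (pt x y (f r) - pt x y s) ≤ 0 := by
    rcases eq_or_lt_of_le hcon with h2 | h2
    · rw [h2, Rt.cr_self]
    · have := hC.orient s (f r) (f s) (by linarith) h2 hs2
      rw [← cr_pt, Rt.cr_antisymm] at this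
      linarith
  have e3 : cr (pt x y (f s) - pt x y s) (k - pt x y s) =
      a * cr (pt x y (f s) - pt x y s) (pt x y r - pt x y s) +
      b * cr (pt x y (f s) - pt x y s) (pt x y (f r) - pt x y s) := by
    rw [← hk3]
    simp only [Rt.cr_eq, Complex.sub_re, Complex.sub_im, Complex.add_re, Complex.add_im,
      Complex.real_smul, Complex.re_ofReal_mul, Complex.im_ofReal_mul]
    have hb' : b = 1 - a := by linarith
    rw [hb']
    ring
  rw [e3] at hpos
  have := mul_neg_of_pos_of_neg ha e1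
  have := mul_nonpos_of_nonneg_of_nonpos hb.le e2
  linarith

theorem step_per (h : Cv x y x' y' L) {f : ℝ → ℝ} (hf : Step x y L Ω K f) (s : ℝ) :
    f (s + L) = f s + L := by
  obtain ⟨h1, h2, h3, -⟩ := hf s
  obtain ⟨-, -, -, h4⟩ := hf (s + L)
  refine (h4 (f s + L) (by linarith) (by linarith) ?_).symm
  rwa [pt_per h, pt_per h]

theorem step_cont (h : Cv x y x' y' L) (hT : Table Ω) (hr : range (pt x y) = frontier Ω)
    (hK : IsCompact K) (hKc : Convex ℝ K) (hKi : (interior K).Nonempty) (hKΩ : K ⊆ Ω)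
    {f : ℝ → ℝ} (hf : Step x y L Ω K f) : Continuous f := by
  have hF := rtFacts hT (segFacts hT) hK hKc hKi hKΩ
  have hpt := continuous_pt h
  have : ∀ s, ∃ k ∈ K, cr (pt x y (f s) - pt x y s) (k - pt x y s) = 0 ∧
      ‖k - pt x y s‖ ≤ ‖pt x y (f s) - pt x y s‖ := by
    intro s
    obtain ⟨-, -, h3, -⟩ := hf s
    obtain ⟨k, hk, hk2⟩ := h3.2.2.2.2
    obtain ⟨r, hr0, hr1, hr2⟩ := Rt.touch_aux hT hKΩ h3.1 h3.2.1 h3.2.2.1 hk hk2
    refine ⟨k, hk, hk2, ?_⟩
    rw [hr2, norm_mul, Complex.norm_real, Real.norm_of_nonneg hr0.le]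
    exact mul_le_of_le_one_left (norm_nonneg _) hr1.le
  choose κ hκ1 hκ2 hκ3 using this
  rw [continuous_iff_continuousAt]
  intro s₀
  rw [ContinuousAt, tendsto_iff_ultrafilter]
  intro u hu
  have hu' : Tendsto id (u : Filter ℝ) (𝓝 s₀) := hu
  -- limit of f
  obtain ⟨r, hrI, hr'⟩ : ∃ r ∈ Icc s₀ (s₀ + L), Tendsto f u (𝓝 r) := by
    have h1 : ∀ᶠ s in (u : Filter ℝ), f s ∈ Icc (s₀ - 1) (s₀ + L + 1) := by
      have h2 : ∀ᶠ s in 𝓝 s₀, s ∈ Ioo (s₀ - 1) (s₀ + 1) := by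
        apply Ioo_mem_nhds <;> linarith
      filter_upwards [hu h2] with s hs
      exact ⟨by linarith [(hf s).1, hs.1], by linarith [(hf s).2.1, hs.2]⟩
    have h2 : (Icc (s₀ - 1) (s₀ + L + 1)) ∈ u.map f := h1
    obtain ⟨r, -, hr⟩ := isCompact_Icc.ultrafilter_le_nhds' (u.map f) h2
    have hr' : Tendsto f u (𝓝 r) := hr
    refine ⟨r, ⟨?_, ?_⟩, hr'⟩
    · exact le_of_tendsto_of_tendsto' hu' hr' fun s => (hf s).1.le
    · exact le_of_tendsto_of_tendsto' hr' (hu'.add_const L) fun s => (hf s).2.1.le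
  obtain ⟨k, hkK, hk⟩ : ∃ k ∈ K, Tendsto κ u (𝓝 k) := by
    have h2 : K ∈ u.map κ := Eventually.of_forall (f := (u : Filter ℝ)) hκ1
    obtain ⟨k, hk1, hk2⟩ := hK.ultrafilter_le_nhds' (u.map κ) h2
    exact ⟨k, hk1, hk2⟩
  have hpf : Tendsto (fun s => pt x y (f s)) u (𝓝 (pt x y r)) := (hpt.tendsto r).comp hr'
  have hps : Tendsto (fun s => pt x y s) u (𝓝 (pt x y s₀)) := (hpt.tendsto s₀).comp hu'
  have hcr : Continuous (fun p : ℂ × ℂ => cr p.1 p.2) := by
    simp only [Rt.cr_eq]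
    fun_prop
  have hlim : ∀ {g : ℝ → ℂ} {z : ℂ}, Tendsto g u (𝓝 z) →
      Tendsto (fun s => cr (pt x y (f s) - pt x y s) (g s - pt x y s)) u
        (𝓝 (cr (pt x y r - pt x y s₀) (z - pt x y s₀))) := by
    intro g z hg
    exact (hcr.tendsto _).comp ((hpf.sub hps).prodMk_nhds (hg.sub hps))
  have hne : pt x y s₀ ≠ pt x y r := by
    intro he
    have h1 : ‖k - pt x y s₀‖ ≤ ‖pt x y r - pt x y s₀‖ :=
      le_of_tendsto_of_tendsto' (hk.sub hps).norm (hpf.sub hps).norm hκ3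
    rw [← he, sub_self, norm_zero] at h1
    have h2 : k = pt x y s₀ := sub_eq_zero.1 (norm_le_zero_iff.1 h1)
    exact Rt.not_mem hT (pt_mem hr s₀) (h2 ▸ hKΩ hkK)
  have hs1 : s₀ < r := by
    refine lt_of_le_of_ne hrI.1 ?_
    rintro rfl
    exact hne rfl
  have hs2 : r < s₀ + L := by
    refine lt_of_le_of_ne hrI.2 ?_
    rintro rfl
    exact hne (pt_per h s₀).symm
  have hRT : RT Ω K (pt x y s₀) (pt x y r) := by
    refine ⟨pt_mem hr _, pt_mem hr _, hne, fun z hz => ?_, k, hkK, ?_⟩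
    · exact ge_of_tendsto' (hlim (tendsto_const_nhds (x := z))) fun s =>
        (hf s).2.2.1.2.2.2.1 z hz
    · refine tendsto_nhds_unique (hlim hk) ?_
      simp only [hκ2]
      exact tendsto_const_nhds
  rw [← (hf s₀).2.2.2 r hs1 hs2 hRT]
  exact hr'

end

theorem t_STP : S_STP := by
  intro x y x' y' L Ω K h hC hT hr hK hKc hKi hKΩ
  obtain ⟨f, hf⟩ := exists_step h hT hr hK hKc hKi hKΩ
  exact ⟨f, hf, step_cont h hT hr hK hKc hKi hKΩ hf, step_strictMono hC hT hK hKc hKi hKΩ hf,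
    step_per h hf⟩

end Pool.Agent.W916.BL
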